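import Pool.Agent.H394Z.MCG.Extend

set_option autoImplicit false

namespace Pool.Agent.H394Z.MCG

open Equiv Filter

/-- least natural number outside a finite set -/
noncomputable def leastOut (E : Finset ℕ) : ℕ := Nat.find (Infinite.exists_notMem_finset E)

theorem leastOut_notMem (E : Finset ℕ) : leastOut E ∉ E :=
  Nat.find_spec (Infinite.exists_notMem_finset E)

theorem leastOut_le (E : Finset ℕ) {m : ℕ} (hm : m ∉ E) : leastOut E ≤ m :=
  Nat.find_min' (Infinite.exists_notMem_finset E) hm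

/-- the points used before stage `s` -/
noncomputable def used (Y : ℕ → Finset ℕ → ℕ) : ℕ → Finset ℕ
  | 0 => ∅
  | s + 1 => insert (Y s (insert (leastOut (used Y s)) (used Y s)))
      (insert (leastOut (used Y s)) (used Y s))

noncomputable def xs (Y : ℕ → Finset ℕ → ℕ) (s : ℕ) : ℕ := leastOut (used Y s)

noncomputable def ys (Y : ℕ → Finset ℕ → ℕ) (s : ℕ) : ℕ := Y s (insert (xs Y s) (used Y s))

theorem used_succ (Y : ℕ → Finset ℕ → ℕ) (s : ℕ) :
    used Y (s + 1) = insert (ys Y s) (insert (xs Y s) (used Y s)) := rfl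

theorem used_mono (Y : ℕ → Finset ℕ → ℕ) : Monotone (used Y) := by
  apply monotone_nat_of_le_succ
  intro s
  rw [used_succ]
  intro x hx
  simp only [Finset.mem_insert]
  tauto

theorem xs_mem (Y : ℕ → Finset ℕ → ℕ) {s t : ℕ} (h : s < t) : xs Y s ∈ used Y t :=
  used_mono Y (Nat.succ_le_of_lt h) (by rw [used_succ]; simp)

theorem ys_mem (Y : ℕ → Finset ℕ → ℕ) {s t : ℕ} (h : s < t) : ys Y s ∈ used Y t :=
  used_mono Y (Nat.succ_le_of_lt h) (by rw [used_succ]; simp)

theorem xs_mem' (Y : ℕ → Finset ℕ → ℕ) {s t : ℕ} (h : s ≤ t) :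
    xs Y s ∈ insert (xs Y t) (used Y t) := by
  rcases h.lt_or_eq with h | rfl
  · exact Finset.mem_insert_of_mem (xs_mem Y h)
  · simp

theorem mem_used (Y : ℕ → Finset ℕ → ℕ) (t : ℕ) :
    ∀ u ∈ used Y t, ∃ s, u = xs Y s ∨ u = ys Y s := by
  induction t with
  | zero => intro u hu; simp [used] at hu
  | succ t ih =>
    intro u hu
    rw [used_succ] at hu
    simp only [Finset.mem_insert] at hu
    rcases hu with h | h | h
    · exact ⟨t, Or.inr h⟩
    · exact ⟨t, Or.inl h⟩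
    · exact ih u h

theorem lt_mem_used (Y : ℕ → Finset ℕ → ℕ) (t : ℕ) : ∀ m < t, m ∈ used Y t := by
  induction t with
  | zero => intro m hm; omega
  | succ t ih =>
    intro m hm
    by_cases h : m ∈ used Y t
    · exact used_mono Y (Nat.le_succ t) h
    · have h1 : xs Y t ≤ m := leastOut_le _ h
      have h2 : ¬ xs Y t < t := fun h3 => leastOut_notMem _ (ih _ h3)
      have h4 : m = xs Y t := by omega
      rw [h4]
      exact xs_mem Y (Nat.lt_succ_self t)

theorem exists_potential (G : Subgroup (Perm ℕ)) (K : ℕ → Set (Perm ℕ)) (hK : Monotone K)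
    (h1 : 1 ∈ K 0) (hGK : ∀ g ∈ G, ∃ s, g ∈ K s)
    (hsmall : ∀ s, ∀ E : Finset ℕ, ∃ y, ∀ u ∈ E, ∀ h ∈ K s, y ≠ h u)
    (hcof : ∀ h ∈ G, Nice h) :
    ∃ (f : Perm ℕ) (φ : ℕ → ℤ), f * f = 1 ∧ (∀ a, φ (f a) = -φ a) ∧ (∀ a, φ a ≠ 0) ∧
      ∀ h ∈ G, h ≠ 1 → ∀ᶠ u in cofinite, 0 < φ u + φ (h u) := by
  choose Y hY using hsmall
  have hy : ∀ s, ∀ u ∈ insert (xs Y s) (used Y s), ∀ h ∈ K s, ys Y s ≠ h u :=
    fun s => hY s _
  have hy1 : ∀ s, ∀ u ∈ insert (xs Y s) (used Y s), ys Y s ≠ u :=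
    fun s u hu => hy s u hu 1 (hK (Nat.zero_le s) h1)
  have hx : ∀ s, xs Y s ∉ used Y s := fun s => leastOut_notMem _
  have hxy : ∀ s t, xs Y s ≠ ys Y t := by
    intro s t e
    rcases le_or_gt s t with h | h
    · exact hy1 t _ (xs_mem' Y h) e.symm
    · exact hx s (e ▸ ys_mem Y h)
  have hbij : Function.Bijective (Sum.elim (xs Y) (ys Y)) := by
    constructor
    · apply Function.Injective.sumElim
      · intro s t e
        rcases lt_trichotomy s t with h | h | h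
        · exact absurd (e ▸ xs_mem Y h) (hx t)
        · exact h
        · exact absurd (e ▸ xs_mem Y h) (hx s)
      · intro s t e
        rcases lt_trichotomy s t with h | h | h
        · exact absurd e.symm (hy1 t _ (Finset.mem_insert_of_mem (ys_mem Y h)))
        · exact h
        · exact absurd e (hy1 s _ (Finset.mem_insert_of_mem (ys_mem Y h)))
      · exact hxy
    · intro m
      obtain ⟨s, h | h⟩ := mem_used Y _ m (lt_mem_used Y (m + 1) m (Nat.lt_succ_self m))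
      · exact ⟨Sum.inl s, h.symm⟩
      · exact ⟨Sum.inr s, h.symm⟩
  set e : ℕ ⊕ ℕ ≃ ℕ := Equiv.ofBijective _ hbij with he
  have hex : ∀ s, e.symm (xs Y s) = Sum.inl s := fun s => e.symm_apply_eq.mpr rfl
  have hey : ∀ s, e.symm (ys Y s) = Sum.inr s := fun s => e.symm_apply_eq.mpr rfl
  have hcases : ∀ m, ∃ s, m = xs Y s ∨ m = ys Y s := fun m =>
    mem_used Y _ m (lt_mem_used Y (m + 1) m (Nat.lt_succ_self m))
  let ψ : ℕ ⊕ ℕ → ℤ := Sum.elim (fun s => (s : ℤ) + 1) (fun s => -((s : ℤ) + 1))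
  have hφx : ∀ s, ψ (e.symm (xs Y s)) = (s : ℤ) + 1 := fun s => by rw [hex]; rfl
  have hφy : ∀ s, ψ (e.symm (ys Y s)) = -((s : ℤ) + 1) := fun s => by rw [hey]; rfl
  refine ⟨(e.symm.trans (Equiv.sumComm ℕ ℕ)).trans e, fun a => ψ (e.symm a), ?_, ?_, ?_, ?_⟩
  · ext a
    simp
  · intro a
    simp only [Equiv.trans_apply, Equiv.symm_apply_apply]
    rcases e.symm a with s | s <;> simp [ψ]
  · intro a
    obtain ⟨s, rfl | rfl⟩ := hcases a
    · simp only [hφx]; omega
    · simp only [hφy]; omega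
  · intro h hh hne
    obtain ⟨s1, hs1⟩ := hGK h hh
    obtain ⟨s2, hs2⟩ := hGK h⁻¹ (G.inv_mem hh)
    have hA : ∀ s, max s1 s2 ≤ s → h ∈ K s := fun s hs => hK (le_trans (le_max_left _ _) hs) hs1
    have hB : ∀ s, max s1 s2 ≤ s → h⁻¹ ∈ K s := fun s hs => hK (le_trans (le_max_right _ _) hs) hs2
    have e1 : ∀ᶠ u in cofinite, h u ≠ u := by
      rw [Filter.eventually_cofinite]
      simpa using hcof h hh hne
    have e2 : ∀ᶠ u in cofinite, u ∉ used Y (max s1 s2) := (used Y (max s1 s2)).eventually_cofinite_notMem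
    have e3 := (h.injective.tendsto_cofinite).eventually e2
    filter_upwards [e1, e2, e3] with u hu1 hu2 hu3
    obtain ⟨s, hs⟩ := hcases u
    obtain ⟨t, ht⟩ := hcases (h u)
    have hs0 : max s1 s2 ≤ s := by
      by_contra hc
      rcases hs with hs | hs
      · exact hu2 (hs ▸ xs_mem Y (not_le.mp hc))
      · exact hu2 (hs ▸ ys_mem Y (not_le.mp hc))
    have ht0 : max s1 s2 ≤ t := by
      by_contra hc
      rcases ht with ht | ht
      · exact hu3 (ht ▸ xs_mem Y (not_le.mp hc))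
      · exact hu3 (ht ▸ ys_mem Y (not_le.mp hc))
    have hinv : u = h⁻¹ (h u) := by simp
    rcases hs with hs | hs <;> rcases ht with ht | ht
    · rw [ht, hs, hφx, hφx]; omega
    · have : ¬ s ≤ t := fun hle => hy t _ (xs_mem' Y hle) h (hA t ht0) (by rw [← ht, ← hs])
      rw [ht, hs, hφx, hφy]; omega
    · have : ¬ t ≤ s := fun hle => hy s _ (xs_mem' Y hle) h⁻¹ (hB s hs0) (by rw [← ht, ← hs]; exact hinv)
      rw [ht, hs, hφx, hφy]; omega
    · exfalso
      rcases lt_trichotomy s t with hlt | heq | hlt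
      · exact hy t _ (Finset.mem_insert_of_mem (ys_mem Y hlt)) h (hA t ht0) (by rw [← ht, ← hs])
      · exact hu1 (by rw [ht, hs, heq])
      · exact hy s _ (Finset.mem_insert_of_mem (ys_mem Y hlt)) h⁻¹ (hB s hs0)
          (by rw [← ht, ← hs]; exact hinv)

/-- The pointwise stabiliser of `{0, …, n-1}` in `G` has finitely many orbits. -/
def FinOrb (G : Subgroup (Perm ℕ)) (n : ℕ) : Prop :=
  ∃ T : Finset ℕ, ∀ y, ∃ t ∈ T, ∃ k ∈ G, (∀ i < n, k i = i) ∧ y = k t

theorem not_maximal_of_not_finOrb (G : Subgroup (Perm ℕ)) (hcof : ∀ h ∈ G, Nice h) (n : ℕ)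
    (hn : ¬ FinOrb G n) : ∃ H : Subgroup (Perm ℕ), G ≤ H ∧ (∀ h ∈ H, Nice h) ∧ H ≠ G := by
  classical
  obtain ⟨enc, henc⟩ := Countable.exists_injective_nat (Fin n → ℕ)
  let c : Perm ℕ → ℕ := fun g => enc (fun i => g⁻¹ i)
  let K : ℕ → Set (Perm ℕ) := fun s => {g | g ∈ G ∧ (g = 1 ∨ c g ≤ s)}
  have hrep : ∀ j : ℕ, ∃ r ∈ G, ∀ g ∈ G, c g = j → c r = j := by
    intro j
    by_cases h : ∃ g ∈ G, c g = j
    · obtain ⟨g, hg, hj⟩ := h
      exact ⟨g, hg, fun _ _ _ => hj⟩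
    · exact ⟨1, G.one_mem, fun g hg hj => absurd ⟨g, hg, hj⟩ h⟩
  choose r hrG hr using hrep
  obtain ⟨f, φ, h1, h2, h3, h4⟩ := exists_potential G K
    (fun s t hst g hg => ⟨hg.1, hg.2.imp id (fun h => le_trans h hst)⟩)
    ⟨G.one_mem, Or.inl rfl⟩ (fun g hg => ⟨c g, hg, Or.inr le_rfl⟩) (by
      intro s E
      by_contra hc
      push Not at hc
      apply hn
      refine ⟨E ∪ (Finset.range (s + 1)).biUnion (fun j => E.image (r j)), fun y => ?_⟩
      obtain ⟨u, hu, h, ⟨hG, hh⟩, rfl⟩ := hc y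
      rcases hh with rfl | hh
      · exact ⟨u, Finset.mem_union_left _ hu, 1, G.one_mem, fun _ _ => rfl, rfl⟩
      · refine ⟨r (c h) u, Finset.mem_union_right _ (Finset.mem_biUnion.mpr
          ⟨c h, Finset.mem_range.mpr (Nat.lt_succ_of_le hh), Finset.mem_image_of_mem _ hu⟩),
          h * (r (c h))⁻¹, G.mul_mem hG (G.inv_mem (hrG _)), ?_, by simp⟩
        intro i hi
        have e1 := henc (hr (c h) h hG rfl)
        have e2 := congrFun e1 ⟨i, hi⟩
        simp only at e2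
        rw [Perm.mul_apply, e2]
        simp) hcof
  exact not_maximal_of_potential G f φ h1 h2 h3 hcof h4

end Pool.Agent.H394Z.MCG
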