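import Mathlib

set_option autoImplicit false

namespace Pool.Agent.H394Z.MCG

open Equiv Filter

/-- The word `h₁ f h₂ f ⋯ h_k f`. -/
def W (f : Perm ℕ) (L : List (Perm ℕ)) : Perm ℕ := (L.map (· * f)).prod

theorem W_nil (f : Perm ℕ) : W f [] = 1 := by simp [W]

theorem W_cons (f h : Perm ℕ) (L : List (Perm ℕ)) : W f (h :: L) = h * f * W f L := by
  simp [W]

theorem W_append (f : Perm ℕ) (A B : List (Perm ℕ)) : W f (A ++ B) = W f A * W f B := by
  simp [W]

/-- identity or finitely many fixed points -/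
def Nice (σ : Perm ℕ) : Prop := σ ≠ 1 → {x : ℕ | σ x = x}.Finite

theorem nice_comm {a b : Perm ℕ} (h : Nice (a * b)) : Nice (b * a) := by
  intro hne
  have h1 : a * b ≠ 1 := fun e => hne (mul_eq_one_comm.mp e)
  have h2 := h h1
  refine (h2.preimage (f := fun x => a x) (a.injective.injOn)).subset ?_
  intro x hx
  simp only [Set.mem_setOf_eq, Perm.mul_apply, Set.mem_preimage] at hx ⊢
  rw [hx]

theorem W_grow (G : Subgroup (Perm ℕ)) (f : Perm ℕ) (φ : ℕ → ℤ)
    (hφ : ∀ a, φ (f a) = -φ a)
    (hG : ∀ h ∈ G, h ≠ 1 → ∀ᶠ u in cofinite, 0 < φ u + φ (h u)) :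
    ∀ L : List (Perm ℕ), (∀ h ∈ L, h ∈ G ∧ h ≠ 1) →
      ∀ᶠ z in cofinite, φ z + L.length ≤ φ (W f L z) := by
  intro L
  induction L with
  | nil => intro _; simp [W_nil]
  | cons h L ih =>
    intro hL
    have h1 := ih (fun k hk => hL k (List.mem_cons_of_mem _ hk))
    have h2 := hG h (hL h List.mem_cons_self).1 (hL h List.mem_cons_self).2
    have h3 := ((f * W f L).injective.tendsto_cofinite).eventually h2
    filter_upwards [h1, h3] with z hz1 hz3
    rw [W_cons]
    simp only [Perm.mul_apply, List.length_cons] at hz3 ⊢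
    rw [hφ] at hz3
    push_cast
    omega

theorem W_nice (G : Subgroup (Perm ℕ)) (f : Perm ℕ) (φ : ℕ → ℤ) (hff : f * f = 1)
    (hφ : ∀ a, φ (f a) = -φ a) (hφ0 : ∀ a, φ a ≠ 0)
    (hcof : ∀ h ∈ G, Nice h)
    (hG : ∀ h ∈ G, h ≠ 1 → ∀ᶠ u in cofinite, 0 < φ u + φ (h u)) :
    ∀ n : ℕ, ∀ L : List (Perm ℕ), L.length = n → (∀ h ∈ L, h ∈ G) → ∀ g ∈ G,
      Nice (W f L * g) := by
  intro n
  induction n using Nat.strong_induction_on with
  | _ n ih =>
  have key : ∀ L : List (Perm ℕ), L.length = n → L ≠ [] → (∀ h ∈ L, h ∈ G) → Nice (W f L) := by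
    intro L hn hne hL
    by_cases h1 : (1 : Perm ℕ) ∈ L
    · obtain ⟨A, B, rfl⟩ := List.append_of_mem h1
      rw [W_append, W_cons, one_mul, ← mul_assoc]
      apply nice_comm
      rw [← mul_assoc, ← W_append]
      rcases List.eq_nil_or_concat (B ++ A) with e | ⟨C, c, e⟩
      · rw [e, W_nil, one_mul]
        intro _
        convert Set.finite_empty
        ext x
        simp only [Set.mem_setOf_eq, Set.mem_empty_iff_false, iff_false]
        intro hx
        have := hφ x
        rw [hx] at this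
        exact hφ0 x (by omega)
      · have hmem : ∀ h ∈ C.concat c, h ∈ G := by
          intro h hh
          rw [← e] at hh
          apply hL
          simp only [List.mem_append, List.mem_cons] at hh ⊢
          tauto
        have hlen : C.length < n := by
          have := congrArg List.length e
          simp only [List.length_append, List.length_cons, List.length_concat] at this hn
          omega
        rw [e, List.concat_eq_append, W_append, W_cons, W_nil, mul_one, mul_assoc, mul_assoc, hff,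
          mul_one]
        exact ih _ hlen C rfl (fun h hh => hmem h (by simp [hh])) c (hmem c (by simp))
    · have h2 := W_grow G f φ hφ hG L (fun h hh => ⟨hL h hh, fun e => h1 (e ▸ hh)⟩)
      intro _
      rw [Filter.eventually_cofinite] at h2
      refine h2.subset ?_
      intro x hx
      simp only [Set.mem_setOf_eq] at hx ⊢
      rw [hx]
      have : 0 < L.length := List.length_pos_iff.mpr hne
      omega
  intro L hn hL g hg
  cases L with
  | nil => rw [W_nil, one_mul]; exact hcof g hg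
  | cons h L =>
    apply nice_comm
    have : g * W f (h :: L) = W f ((g * h) :: L) := by
      rw [W_cons, W_cons]; simp only [mul_assoc]
    rw [this]
    refine key _ (by simpa using hn) (by simp) ?_
    intro k hk
    rcases List.mem_cons.mp hk with rfl | hk
    · exact G.mul_mem hg (hL h List.mem_cons_self)
    · exact hL k (List.mem_cons_of_mem _ hk)

theorem exists_word (G : Subgroup (Perm ℕ)) (f : Perm ℕ) (hff : f * f = 1) (σ : Perm ℕ)
    (hσ : σ ∈ Subgroup.closure (insert f (G : Set (Perm ℕ)))) :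
    ∃ L : List (Perm ℕ), (∀ h ∈ L, h ∈ G) ∧ ∃ g ∈ G, σ = W f L * g := by
  have step : ∀ x y : Perm ℕ, (y = f ∨ y ∈ G) →
      (∃ L : List (Perm ℕ), (∀ h ∈ L, h ∈ G) ∧ ∃ g ∈ G, x = W f L * g) →
      (∃ L : List (Perm ℕ), (∀ h ∈ L, h ∈ G) ∧ ∃ g ∈ G, x * y = W f L * g) := by
    rintro x y hy ⟨L, hL, g, hg, rfl⟩
    rcases hy with rfl | hy
    · refine ⟨L ++ [g], ?_, 1, G.one_mem, ?_⟩
      · intro h hh
        rcases List.mem_append.mp hh with hh | hh
        · exact hL h hh
        · rw [List.mem_singleton.mp hh]; exact hg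
      · rw [W_append, W_cons, W_nil]; simp only [mul_one, mul_assoc]
    · exact ⟨L, hL, g * y, G.mul_mem hg hy, by rw [mul_assoc]⟩
  induction hσ using Subgroup.closure_induction_right with
  | one => exact ⟨[], by simp, 1, G.one_mem, by simp [W_nil]⟩
  | mul_right x _ y hy ih => exact step x y (by simpa using hy) ih
  | mul_inv_cancel x _ y hy ih =>
    apply step x y⁻¹ _ ih
    rcases Set.mem_insert_iff.mp hy with rfl | hy
    · left; exact inv_eq_of_mul_eq_one_right hff
    · right; exact G.inv_mem hy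

theorem not_maximal_of_potential (G : Subgroup (Perm ℕ)) (f : Perm ℕ) (φ : ℕ → ℤ)
    (hff : f * f = 1) (hφ : ∀ a, φ (f a) = -φ a) (hφ0 : ∀ a, φ a ≠ 0)
    (hcof : ∀ h ∈ G, Nice h)
    (hG : ∀ h ∈ G, h ≠ 1 → ∀ᶠ u in cofinite, 0 < φ u + φ (h u)) :
    ∃ H : Subgroup (Perm ℕ), G ≤ H ∧ (∀ h ∈ H, Nice h) ∧ H ≠ G := by
  refine ⟨Subgroup.closure (insert f (G : Set (Perm ℕ))), ?_, ?_, ?_⟩
  · intro g hg
    exact Subgroup.subset_closure (Set.mem_insert_of_mem _ hg)
  · intro σ hσ
    obtain ⟨L, hL, g, hg, rfl⟩ := exists_word G f hff σ hσ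
    exact W_nice G f φ hff hφ hφ0 hcof hG _ L rfl hL g hg
  · intro e
    have hf : f ∈ G := e ▸ Subgroup.subset_closure (Set.mem_insert _ _)
    have hf1 : f ≠ 1 := by
      intro e1
      have := hφ 0
      rw [e1] at this
      simp only [Perm.one_apply] at this
      exact hφ0 0 (by omega)
    obtain ⟨u, hu⟩ := (hG f hf hf1).exists
    rw [hφ] at hu
    omega

end Pool.Agent.H394Z.MCG
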