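import Pool.Agent.H394Z.MCG.Build

set_option autoImplicit false

namespace Pool.Agent.H394Z.MCG

open Equiv Filter

/-- at least `N` fixed points -/
def FixGe (g : Perm ℕ) (N : ℕ) : Prop := ∃ S : Finset ℕ, N ≤ S.card ∧ ∀ x ∈ S, g x = x

theorem FixGe.mono {g : Perm ℕ} {N M : ℕ} (h : FixGe g N) (hM : M ≤ N) : FixGe g M := by
  obtain ⟨S, h1, h2⟩ := h
  exact ⟨S, le_trans hM h1, h2⟩

theorem FixGe.conj {g : Perm ℕ} {N : ℕ} (h : FixGe g N) (k : Perm ℕ) : FixGe (k⁻¹ * g * k) N := by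
  obtain ⟨S, h1, h2⟩ := h
  refine ⟨S.image (fun x => k⁻¹ x), ?_, ?_⟩
  · rwa [Finset.card_image_of_injective _ (k⁻¹).injective]
  · intro x hx
    obtain ⟨y, hy, rfl⟩ := Finset.mem_image.mp hx
    simp [h2 y hy]

theorem select (G : Subgroup (Perm ℕ)) (n : ℕ) (hn : FinOrb G n) (Φ : Perm ℕ → ℕ → Prop)
    (hinv : ∀ g d k, (∀ i < n, k i = i) → Φ g (k d) → Φ (k⁻¹ * g * k) d)
    (h : ∀ N, ∃ g ∈ G, ∃ d, Φ g d ∧ FixGe g N) :
    ∃ d, ∀ N, ∃ g ∈ G, Φ g d ∧ FixGe g N := by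
  obtain ⟨T, hT⟩ := hn
  by_contra hc
  push Not at hc
  choose M hM using hc
  obtain ⟨g, hg, d, hd, hf⟩ := h (T.sup M)
  obtain ⟨t, ht, k, hk, hki, rfl⟩ := hT d
  exact hM t (k⁻¹ * g * k) (G.mul_mem (G.mul_mem (G.inv_mem hk) hg) hk) (hinv g t k hki hd)
    ((hf.conj k).mono (Finset.le_sup ht))

/-- The finite map `P` is realised by elements of `G` with arbitrarily many fixed points. -/
def Good (G : Subgroup (Perm ℕ)) (P : Finset (ℕ × ℕ)) : Prop :=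
  ∀ N, ∃ g ∈ G, (∀ p ∈ P, g p.1 = p.2) ∧ FixGe g N

theorem exists_bound (P : Finset (ℕ × ℕ)) (c : ℕ) :
    ∃ n, c < n ∧ ∀ p ∈ P, p.1 < n ∧ p.2 < n := by
  refine ⟨P.sup (fun p => p.1 + p.2) + c + 1, by omega, fun p hp => ?_⟩
  have : p.1 + p.2 ≤ P.sup (fun p => p.1 + p.2) := Finset.le_sup (f := fun p : ℕ × ℕ => p.1 + p.2) hp
  omega

theorem inv_fix {k : Perm ℕ} {i : ℕ} (h : k i = i) : k⁻¹ i = i := by
  rw [Perm.inv_eq_iff_eq]; exact h.symm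

theorem conj_ext {P : Finset (ℕ × ℕ)} {n : ℕ} (hP : ∀ p ∈ P, p.1 < n ∧ p.2 < n) {g k : Perm ℕ}
    (hk : ∀ i < n, k i = i) (hg : ∀ p ∈ P, g p.1 = p.2) :
    ∀ p ∈ P, (k⁻¹ * g * k) p.1 = p.2 := by
  intro p hp
  simp only [Perm.mul_apply]
  rw [hk _ (hP p hp).1, hg p hp, inv_fix (hk _ (hP p hp).2)]

theorem good_forth (G : Subgroup (Perm ℕ)) (hO : ∀ n, FinOrb G n) {P : Finset (ℕ × ℕ)}
    (hP : Good G P) (c : ℕ) : ∃ d, Good G (insert (c, d) P) := by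
  obtain ⟨n, hc, hb⟩ := exists_bound P c
  obtain ⟨d, hd⟩ := select G n (hO n) (fun g d => (∀ p ∈ P, g p.1 = p.2) ∧ g c = d)
    (by
      rintro g d k hk ⟨h1, h2⟩
      refine ⟨conj_ext hb hk h1, ?_⟩
      simp only [Perm.mul_apply]
      rw [hk c hc, h2]; simp)
    (fun N => by
      obtain ⟨g, hg, h1, h2⟩ := hP N
      exact ⟨g, hg, g c, ⟨h1, rfl⟩, h2⟩)
  refine ⟨d, fun N => ?_⟩
  obtain ⟨g, hg, ⟨h1, h2⟩, h3⟩ := hd N
  refine ⟨g, hg, fun p hp => ?_, h3⟩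
  rcases Finset.mem_insert.mp hp with rfl | hp
  · exact h2
  · exact h1 p hp

theorem good_back (G : Subgroup (Perm ℕ)) (hO : ∀ n, FinOrb G n) {P : Finset (ℕ × ℕ)}
    (hP : Good G P) (c : ℕ) : ∃ d, Good G (insert (d, c) P) := by
  obtain ⟨n, hc, hb⟩ := exists_bound P c
  obtain ⟨d, hd⟩ := select G n (hO n) (fun g d => (∀ p ∈ P, g p.1 = p.2) ∧ g d = c)
    (by
      rintro g d k hk ⟨h1, h2⟩
      refine ⟨conj_ext hb hk h1, ?_⟩
      simp only [Perm.mul_apply]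
      rw [h2, inv_fix (hk c hc)])
    (fun N => by
      obtain ⟨g, hg, h1, h2⟩ := hP N
      exact ⟨g, hg, g⁻¹ c, ⟨h1, by simp⟩, h2⟩)
  refine ⟨d, fun N => ?_⟩
  obtain ⟨g, hg, ⟨h1, h2⟩, h3⟩ := hd N
  refine ⟨g, hg, fun p hp => ?_, h3⟩
  rcases Finset.mem_insert.mp hp with rfl | hp
  · exact h2
  · exact h1 p hp

theorem good_fix (G : Subgroup (Perm ℕ)) (hO : ∀ n, FinOrb G n) {P : Finset (ℕ × ℕ)}
    (hP : Good G P) (c : ℕ) : ∃ d, c ≤ d ∧ Good G (insert (d, d) P) := by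
  obtain ⟨n, hc, hb⟩ := exists_bound P c
  obtain ⟨d, hd⟩ := select G n (hO n) (fun g d => (∀ p ∈ P, g p.1 = p.2) ∧ g d = d ∧ n ≤ d)
    (by
      rintro g d k hk ⟨h1, h2, h3⟩
      refine ⟨conj_ext hb hk h1, ?_, ?_⟩
      · simp only [Perm.mul_apply]
        rw [h2]; simp
      · by_contra hlt
        rw [hk d (not_le.mp hlt)] at h3
        exact hlt h3)
    (fun N => by
      obtain ⟨g, hg, h1, h2⟩ := hP (max N (n + 1))
      obtain ⟨S, hS1, hS2⟩ := h2.mono (le_max_right _ _)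
      have : ¬ S ⊆ Finset.range n := by
        intro hsub
        have := Finset.card_le_card hsub
        simp at this
        omega
      obtain ⟨x, hx, hxn⟩ := Finset.not_subset.mp this
      exact ⟨g, hg, x, ⟨h1, hS2 x hx, by simpa using hxn⟩, h2.mono (le_max_left _ _)⟩)
  obtain ⟨g0, -, ⟨-, -, h0⟩, -⟩ := hd 0
  refine ⟨d, by omega, fun N => ?_⟩
  obtain ⟨g, hg, ⟨h1, h2, -⟩, h3⟩ := hd N
  refine ⟨g, hg, fun p hp => ?_, h3⟩
  rcases Finset.mem_insert.mp hp with rfl | hp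
  · exact h2
  · exact h1 p hp

theorem good_start (G : Subgroup (Perm ℕ)) (hO : ∀ n, FinOrb G n) :
    ∃ d d', d ≠ d' ∧ Good G {(d, d')} := by
  obtain ⟨d, hd⟩ := select G 0 (hO 0) (fun g d => g d ≠ d)
    (by
      intro g d k _ h1 h2
      apply h1
      simp only [Perm.mul_apply] at h2
      rw [Perm.inv_eq_iff_eq] at h2
      exact h2)
    (fun N => by
      obtain ⟨T, hT⟩ := hO N
      obtain ⟨y, hy⟩ := Infinite.exists_notMem_finset T
      obtain ⟨t, ht, k, hk, hki, rfl⟩ := hT y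
      refine ⟨k, hk, t, fun e => hy (by rw [e]; exact ht), Finset.range N, by simp, ?_⟩
      intro x hx
      exact hki x (Finset.mem_range.mp hx))
  obtain ⟨d', hd'⟩ := select G (d + 1) (hO _) (fun g d' => g d = d' ∧ d ≠ d')
    (by
      rintro g d' k hk ⟨h1, h2⟩
      constructor
      · simp only [Perm.mul_apply]
        rw [hk d (Nat.lt_succ_self d), h1]; simp
      · rintro rfl
        exact h2 (hk d (Nat.lt_succ_self d)).symm)
    (fun N => by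
      obtain ⟨g, hg, h1, h2⟩ := hd N
      exact ⟨g, hg, g d, ⟨rfl, fun e => h1 e.symm⟩, h2⟩)
  obtain ⟨g0, -, ⟨-, h0⟩, -⟩ := hd' 0
  refine ⟨d, d', h0, fun N => ?_⟩
  obtain ⟨g, hg, ⟨h1, -⟩, h3⟩ := hd' N
  refine ⟨g, hg, fun p hp => ?_, h3⟩
  rw [Finset.mem_singleton.mp hp]
  exact h1

theorem good_step (G : Subgroup (Perm ℕ)) (hO : ∀ n, FinOrb G n) (P : Finset (ℕ × ℕ))
    (hP : Good G P) (c : ℕ) : ∃ Q, Good G Q ∧ P ⊆ Q ∧ (∃ d, (c, d) ∈ Q) ∧ (∃ d, (d, c) ∈ Q) ∧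
      ∃ d, c ≤ d ∧ (d, d) ∈ Q := by
  obtain ⟨d1, h1⟩ := good_forth G hO hP c
  obtain ⟨d2, h2⟩ := good_back G hO h1 c
  obtain ⟨d3, hc, h3⟩ := good_fix G hO h2 c
  refine ⟨_, h3, ?_, ⟨d1, by simp⟩, ⟨d2, by simp⟩, d3, hc, by simp⟩
  intro p hp
  simp [hp]

/-- A closed group all of whose finite pointwise stabilisers have finitely many orbits contains
a non-identity element with infinitely many fixed points. -/
theorem not_cofinitary (G : Subgroup (Perm ℕ)) (hO : ∀ n, FinOrb G n)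
    (hcl : ∀ σ : Perm ℕ, σ ∉ G → ∃ n : ℕ, ∀ τ : Perm ℕ, (∀ i < n, τ i = σ i) → τ ∉ G) :
    ∃ σ ∈ G, σ ≠ 1 ∧ {x : ℕ | σ x = x}.Infinite := by
  obtain ⟨d, d', hdd, h0⟩ := good_start G hO
  choose! F hF using good_step G hO
  let P : ℕ → Finset (ℕ × ℕ) := fun n => Nat.rec {(d, d')} (fun c Q => F Q c) n
  have hPs : ∀ n, P (n + 1) = F (P n) n := fun _ => rfl
  have hgood : ∀ n, Good G (P n) := by
    intro n
    induction n with
    | zero => exact h0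
    | succ n ih => rw [hPs]; exact (hF _ ih n).1
  have hmono : Monotone P := by
    apply monotone_nat_of_le_succ
    intro n
    rw [hPs]
    exact (hF _ (hgood n) n).2.1
  have hfun : ∀ m n a b a' b', (a, b) ∈ P m → (a', b') ∈ P n → (a = a' ↔ b = b') := by
    intro m n a b a' b' h1 h2
    obtain ⟨g, -, hg, -⟩ := hgood (max m n) 0
    have e1 : g a = b := hg _ (hmono (le_max_left m n) h1)
    have e2 : g a' = b' := hg _ (hmono (le_max_right m n) h2)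
    rw [← e1, ← e2]
    exact g.injective.eq_iff.symm
  have hA : ∀ c, ∃ x, (c, x) ∈ P (c + 1) := fun c => (hF _ (hgood c) c).2.2.1
  have hB : ∀ c, ∃ x, (x, c) ∈ P (c + 1) := fun c => (hF _ (hgood c) c).2.2.2.1
  have hC : ∀ c, ∃ x, c ≤ x ∧ (x, x) ∈ P (c + 1) := fun c => (hF _ (hgood c) c).2.2.2.2
  choose s hs using hA
  choose t ht using hB
  let σ : Perm ℕ :=
    { toFun := s
      invFun := t
      left_inv := fun c => (hfun (s c + 1) (c + 1) (t (s c)) (s c) c (s c) (ht (s c)) (hs c)).mpr rfl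
      right_inv := fun c =>
        (hfun (t c + 1) (c + 1) (t c) (s (t c)) (t c) c (hs (t c)) (ht c)).mp rfl }
  have hσ : ∀ n a b, (a, b) ∈ P n → σ a = b := fun n a b h =>
    (hfun (a + 1) n a (s a) a b (hs a) h).mp rfl
  refine ⟨σ, ?_, ?_, ?_⟩
  · by_contra hn
    obtain ⟨n, hτ⟩ := hcl σ hn
    obtain ⟨g, hg, h1, -⟩ := hgood n 0
    exact hτ g (fun i hi => h1 (i, s i) (hmono (Nat.succ_le_of_lt hi) (hs i))) hg
  · intro e
    have := hσ 0 d d' (Finset.mem_singleton_self _)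
    rw [e] at this
    exact hdd this
  · apply Set.infinite_of_forall_exists_gt
    intro c
    obtain ⟨x, hx, hxx⟩ := hC (c + 1)
    exact ⟨x, hσ (c + 1 + 1) x x hxx, hx⟩

theorem no_closed_mcg (G : Subgroup (Perm ℕ))
    (hcl : ∀ σ : Perm ℕ, σ ∉ G → ∃ n : ℕ, ∀ τ : Perm ℕ, (∀ i < n, τ i = σ i) → τ ∉ G)
    (hcof : ∀ g ∈ G, g ≠ 1 → {x : ℕ | g x = x}.Finite)
    (hmax : ∀ H : Subgroup (Perm ℕ), G ≤ H →
      (∀ h ∈ H, h ≠ 1 → {x : ℕ | h x = x}.Finite) → H = G) : False := by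
  by_cases hO : ∀ n, FinOrb G n
  · obtain ⟨σ, h1, h2, h3⟩ := not_cofinitary G hO hcl
    exact h3 (hcof σ h1 h2)
  · push Not at hO
    obtain ⟨n, hn⟩ := hO
    obtain ⟨H, h1, h2, h3⟩ := not_maximal_of_not_finOrb G hcof n hn
    exact h3 (hmax H h1 h2)

end Pool.Agent.H394Z.MCG
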